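import Pool.Agent.helper60.ZrL.Sys

set_option autoImplicit false

/-!
# ZrG (MP_8ee7fe_ag): discriminants of finite linear groups, definitions
-/

noncomputable section

namespace ZrG

open Filter Topology Set

variable {V : Type*} [NormedAddCommGroup V] [NormedSpace ℂ V] {E : Type*} [NormedAddCommGroup E]

/-- the vectors fixed by the stabilizer of `v` -/
def fixSt (G : Subgroup (V ≃ₗ[ℂ] V)) (v : V) : Submodule ℂ V where
  carrier := {w | ∀ g ∈ G, g v = v → g w = w}
  add_mem' := by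
    intro a b ha hb g hg hv
    rw [map_add, ha g hg hv, hb g hg hv]
  zero_mem' := fun g _ _ => map_zero g
  smul_mem' := by
    intro c a ha g hg hv
    rw [map_smul, ha g hg hv]

theorem mem_fixSt {G : Subgroup (V ≃ₗ[ℂ] V)} {v w : V} : w ∈ fixSt G v ↔ ∀ g ∈ G, g v = v → g w = w := Iff.rfl

/-- `q : V → E` is the orbit map of the finite group `G` without nonzero fixed vectors, the zeros of `f` are the images of the vectors with nontrivial
stabilizer, and for a dense set of them the stabilizer of a preimage fixes a subspace of codimension at most `e` -/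
structure OrbitDisc (G : Subgroup (V ≃ₗ[ℂ] V)) (q : V → E) (f : E → ℂ) (e : ℕ) : Prop where
  fin : Finite G
  cont : Continuous q
  opn : IsOpenMap q
  zero : q 0 = 0
  fib : ∀ v w, q v = q w ↔ ∃ g ∈ G, g v = w
  fix : ∀ v, (∀ g ∈ G, g v = v) → v = 0
  locus : ∀ᶠ x in 𝓝 (0 : E), (f x = 0 ↔ ∃ v, q v = x ∧ ∃ g ∈ G, g ≠ 1 ∧ g v = v)
  dens : ∀ᶠ x in 𝓝 (0 : E), f x = 0 →
    x ∈ closure {y | f y = 0 ∧ ∃ v, q v = y ∧ Module.finrank ℂ V ≤ Module.finrank ℂ (fixSt G v) + e}

/-- the images of the vectors with trivial stabilizer -/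
def RegO (G : Subgroup (V ≃ₗ[ℂ] V)) (q : V → E) : Set E := {x | ∃ v, q v = x ∧ ∀ g ∈ G, g v = v → g = 1}

/-- preimages `σ x` and group elements `γ x y` matching preimages of nearby points -/
structure Frame (G : Subgroup (V ≃ₗ[ℂ] V)) (q : V → E) (σ : E → V) (γ : E → E → (V ≃ₗ[ℂ] V)) : Prop where
  sec : ∀ x ∈ RegO G q, q (σ x) = x ∧ ∀ g ∈ G, g (σ x) = σ x → g = 1
  mem : ∀ x y, γ x y ∈ G
  near : ∀ x ∈ RegO G q, ∀ ε : ℝ, 0 < ε → ∀ᶠ y in 𝓝[RegO G q] x, ‖(γ x y).symm (σ y) - σ x‖ < ε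

end ZrG
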