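import Pool.Agent.helper60.ZrG.Defs

set_option autoImplicit false

/-!
# ZrG, module G1: the local system of a finite linear group

`sep`: if `v` has trivial stabilizer then `g v ≠ v` for the finitely many `g ≠ 1` in `G`; all `g ∈ G` are continuous (finite-dimensional space: `LinearMap.continuous_of_finiteDimensional`), so for `w` near `v`, `‖g w - v‖ ≥ δ` for all `g ∈ G`, `g ≠ 1`: two points `w, g w` (`g ∈ G`) which are both within `δ` of `v` are equal, `g = 1`.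
`exists_frame`: `σ x` := a preimage with trivial stabilizer (all preimages are conjugate, so any preimage of a point of `RegO` has trivial stabilizer), junk elsewhere. `γ x y` := some `g ∈ G` with `‖g.symm (σ y) - σ x‖ < δ (σ x)` (`δ` from `sep`), if there is one, else `1`. `near`: for `ε ≤ δ`, `q (ball (σ x) ε)` is open and contains `x`; for `y` in it there is `v` within `ε` of `σ x`
with `q v = y = q (σ y)`, so `g v = σ y`, `g ∈ G`, `‖g.symm (σ y) - σ x‖ < ε`, and `γ x y = g` by `sep` (`g.symm (σ y)` and `(γ x y).symm (σ y)` are both within `δ` of `σ x`).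
`Frame.unique`: for `y ∈ RegO` near `x` every `g ∈ G` with `‖g.symm (σ y) - σ x‖ < δ` equals `γ x y`.
`Frame.locsys`: as for matchings: `γ y w ∘ γ x y = γ x w` for `y` near `x`, `w` near `y` (`(γ y w * γ x y).symm (σ w) = (γ x y).symm ((γ y w).symm (σ w))`, `(γ y w).symm (σ w)` is close to `σ y`, so this is close to `(γ x y).symm (σ y)` (continuity of the finitely many elements of `G`), which is close to `σ x`; `unique`).
-/

noncomputable section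

namespace ZrG

open Filter Topology Set

variable {V : Type*} [NormedAddCommGroup V] [NormedSpace ℂ V] [FiniteDimensional ℂ V] {E : Type*} [NormedAddCommGroup E]

theorem cont_equiv (g : V ≃ₗ[ℂ] V) : Continuous (fun v : V => g v) :=
  LinearMap.continuous_of_finiteDimensional (g : V →ₗ[ℂ] V)

theorem sep {G : Subgroup (V ≃ₗ[ℂ] V)} (hG : Finite G) {v : V} (hv : ∀ g ∈ G, g v = v → g = 1) :
    ∃ δ : ℝ, 0 < δ ∧ ∀ w, ‖w - v‖ < δ → ∀ g ∈ G, ‖g w - v‖ < δ → g = 1 := by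
  have key : ∀ g : G, ∀ᶠ δ : ℝ in 𝓝[>] 0, ∀ w, ‖w - v‖ < δ → ‖(g : V ≃ₗ[ℂ] V) w - v‖ < δ → (g : V ≃ₗ[ℂ] V) = 1 := by
    intro g
    by_cases hg : (g : V ≃ₗ[ℂ] V) = 1
    · exact Eventually.of_forall fun _ _ _ _ => hg
    · have hne : (g : V ≃ₗ[ℂ] V) v ≠ v := fun h => hg (hv g g.2 h)
      have hc : 0 < ‖(g : V ≃ₗ[ℂ] V) v - v‖ := norm_pos_iff.2 (sub_ne_zero.2 hne)
      obtain ⟨η, hη, hη'⟩ := Metric.continuousAt_iff.1 ((cont_equiv (g : V ≃ₗ[ℂ] V)).continuousAt (x := v))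
        (‖(g : V ≃ₗ[ℂ] V) v - v‖ / 2) (half_pos hc)
      have h1 : ∀ᶠ δ : ℝ in 𝓝[>] 0, δ < η := nhdsWithin_le_nhds (gt_mem_nhds hη)
      have h2 : ∀ᶠ δ : ℝ in 𝓝[>] 0, δ < ‖(g : V ≃ₗ[ℂ] V) v - v‖ / 2 :=
        nhdsWithin_le_nhds (gt_mem_nhds (half_pos hc))
      filter_upwards [h1, h2] with δ h1 h2 w hw hw'
      exfalso
      have h3 := hη' (x := w) (by rw [dist_eq_norm]; exact hw.trans h1)
      rw [dist_eq_norm] at h3
      have h4 : ‖(g : V ≃ₗ[ℂ] V) v - v‖ ≤ ‖(g : V ≃ₗ[ℂ] V) w - (g : V ≃ₗ[ℂ] V) v‖ + ‖(g : V ≃ₗ[ℂ] V) w - v‖ := by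
        have h5 : (g : V ≃ₗ[ℂ] V) v - v = ((g : V ≃ₗ[ℂ] V) w - v) - ((g : V ≃ₗ[ℂ] V) w - (g : V ≃ₗ[ℂ] V) v) := by
          abel
        rw [h5]
        exact (norm_sub_le _ _).trans (le_of_eq (add_comm _ _))
      linarith
  have key2 := eventually_all.2 key
  obtain ⟨δ, h1, h2⟩ := (key2.and self_mem_nhdsWithin).exists
  exact ⟨δ, h2, fun w hw g hg hgw => h1 ⟨g, hg⟩ w hw hgw⟩

theorem exists_frame {G : Subgroup (V ≃ₗ[ℂ] V)} {q : V → E} {f : E → ℂ} {e : ℕ} (h : OrbitDisc G q f e) :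
    ∃ (σ : E → V) (γ : E → E → (V ≃ₗ[ℂ] V)), Frame G q σ γ := by
  classical
  have h1 : ∀ x : E, ∃ v : V, x ∈ RegO G q → (q v = x ∧ ∀ g ∈ G, g v = v → g = 1) := by
    intro x
    by_cases hx : x ∈ RegO G q
    · obtain ⟨v, hv⟩ := hx
      exact ⟨v, fun _ => hv⟩
    · exact ⟨0, fun hx' => absurd hx' hx⟩
  choose σ hσ using h1
  have h2 : ∀ x : E, ∃ δ : ℝ, x ∈ RegO G q → (0 < δ ∧ ∀ w, ‖w - σ x‖ < δ → ∀ g ∈ G, ‖g w - σ x‖ < δ → g = 1) := by
    intro x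
    by_cases hx : x ∈ RegO G q
    · obtain ⟨δ, hδ⟩ := sep h.fin (hσ x hx).2
      exact ⟨δ, fun _ => hδ⟩
    · exact ⟨0, fun hx' => absurd hx' hx⟩
  choose δ hδ using h2
  have h3 : ∀ x y : E, ∃ g : V ≃ₗ[ℂ] V, g ∈ G ∧
      ((∃ g' ∈ G, ‖g'.symm (σ y) - σ x‖ < δ x) → ‖g.symm (σ y) - σ x‖ < δ x) := by
    intro x y
    by_cases hg : ∃ g' ∈ G, ‖g'.symm (σ y) - σ x‖ < δ x
    · obtain ⟨g, hgG, hg'⟩ := hg
      exact ⟨g, hgG, fun _ => hg'⟩
    · exact ⟨1, G.one_mem, fun hg' => absurd hg' hg⟩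
  choose γ hγ using h3
  refine ⟨σ, γ, hσ, fun x y => (hγ x y).1, fun x hx ε hε => ?_⟩
  obtain ⟨hδ0, hδ1⟩ := hδ x hx
  have h4 : q '' Metric.ball (σ x) (min ε (δ x)) ∈ 𝓝 x := by
    refine (h.opn _ Metric.isOpen_ball).mem_nhds ⟨σ x, Metric.mem_ball_self (lt_min hε hδ0), (hσ x hx).1⟩
  filter_upwards [nhdsWithin_le_nhds h4, self_mem_nhdsWithin] with y hy hyR
  obtain ⟨v, hv, hvy⟩ := hy
  rw [Metric.mem_ball, dist_eq_norm] at hv
  obtain ⟨g, hg, hgv⟩ := (h.fib v (σ y)).1 (hvy.trans (hσ y hyR).1.symm)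
  have h5 : g.symm (σ y) = v := by rw [← hgv, LinearEquiv.symm_apply_apply]
  have h6 : ‖(γ x y).symm (σ y) - σ x‖ < δ x :=
    (hγ x y).2 ⟨g, hg, by rw [h5]; exact hv.trans_le (min_le_right _ _)⟩
  have h7 : (γ x y)⁻¹ * g = 1 := by
    refine hδ1 v (hv.trans_le (min_le_right _ _)) _ (G.mul_mem (G.inv_mem (hγ x y).1) hg) ?_
    have h8 : ((γ x y)⁻¹ * g) v = (γ x y).symm (σ y) := by
      rw [← hgv]
      rfl
    rw [h8]
    exact h6
  have h9 : g = γ x y := by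
    rw [inv_mul_eq_one] at h7
    exact h7.symm
  rw [← h9, h5]
  exact hv.trans_le (min_le_left _ _)

theorem Frame.unique {G : Subgroup (V ≃ₗ[ℂ] V)} {q : V → E} {f : E → ℂ} {e : ℕ} (h : OrbitDisc G q f e) {σ : E → V}
    {γ : E → E → (V ≃ₗ[ℂ] V)} (hF : Frame G q σ γ) {x : E} (hx : x ∈ RegO G q) :
    ∃ ε : ℝ, 0 < ε ∧ ∀ᶠ y in 𝓝[RegO G q] x, ∀ g ∈ G, ‖g.symm (σ y) - σ x‖ < ε → g = γ x y := by
  obtain ⟨δ, hδ0, hδ1⟩ := sep h.fin (hF.sec x hx).2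
  refine ⟨δ, hδ0, ?_⟩
  filter_upwards [hF.near x hx δ hδ0] with y hy g hg hgy
  have h7 : (γ x y)⁻¹ * g = 1 := by
    refine hδ1 (g.symm (σ y)) hgy _ (G.mul_mem (G.inv_mem (hF.mem x y)) hg) ?_
    have h8 : ((γ x y)⁻¹ * g) (g.symm (σ y)) = (γ x y).symm (σ y) := by
      change (γ x y).symm (g (g.symm (σ y))) = _
      rw [LinearEquiv.apply_symm_apply]
    rw [h8]
    exact hy
  rw [inv_mul_eq_one] at h7
  exact h7.symm

theorem Frame.locsys {G : Subgroup (V ≃ₗ[ℂ] V)} {q : V → E} {f : E → ℂ} {e : ℕ} (h : OrbitDisc G q f e) {σ : E → V}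
    {γ : E → E → (V ≃ₗ[ℂ] V)} (hF : Frame G q σ γ) : ZrL.IsLocSys (RegO G q) γ := by
  intro x hx
  obtain ⟨ε, hε, hu⟩ := hF.unique h hx
  have hu2 := eventually_eventually_nhdsWithin.2 hu
  filter_upwards [hu2, hF.near x hx (ε / 2) (half_pos hε), self_mem_nhdsWithin] with y h1 h2 hy
  obtain ⟨η, hη, hη'⟩ := Metric.continuousAt_iff.1 ((cont_equiv (γ x y).symm).continuousAt (x := σ y))
    (ε / 2) (half_pos hε)
  filter_upwards [h1, hF.near y hy η hη] with w h3 h4 u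
  have h5 : γ y w * γ x y = γ x w := by
    refine h3 _ (G.mul_mem (hF.mem y w) (hF.mem x y)) ?_
    have h6 : (γ y w * γ x y).symm (σ w) = (γ x y).symm ((γ y w).symm (σ w)) := rfl
    rw [h6]
    have h7 := hη' (x := (γ y w).symm (σ w)) (by rw [dist_eq_norm]; exact h4)
    rw [dist_eq_norm] at h7
    have h8 : (γ x y).symm ((γ y w).symm (σ w)) - σ x
        = ((γ x y).symm ((γ y w).symm (σ w)) - (γ x y).symm (σ y)) + ((γ x y).symm (σ y) - σ x) := by abel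
    rw [h8]
    refine (norm_add_le _ _).trans_lt ?_
    linarith
  rw [← h5]
  rfl

end ZrG
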