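import Pool.Agent.helper60.ZrG.G1

set_option autoImplicit false

/-!
# ZrG, module G2: the defect

Let `C = {g ∈ G | g v0 = v0}`. There is an open neighbourhood `U` of `v0` such that `g ∈ G`, `w ∈ U`, `g w ∈ U` imply `g ∈ C` (for `g ∈ G \ C`, `g v0 ≠ v0`, finitely many, continuous). `O := q '' U`, intersected with an open neighbourhood of `q v0` where `f x = 0 ↔ ...` (`hl`): a neighbourhood of `q v0` (`opn`). For `x ∈ O`, `f x ≠ 0`: `x ∈ RegO G q`.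
For `u ∈ fixSt G v0` define `s x` for `x ∈ O \ {f = 0}`: choose `v ∈ U`, `q v = x`, and `g ∈ G` with `g v = σ x`; `s x := g u`. Independent of the choice: if `v' ∈ U`, `g' v' = σ x`, then `v' = (g'⁻¹ g) v`, both in `U`, so `g'⁻¹ g ∈ C` fixes `u`, `g' u = g u`. Flat: for `y` near `x` (in `O \ {f = 0}`) `v' := g.symm ((γ x y).symm (σ y))` is close to `g.symm (σ x) = v`, so in `U`, `q v' = y`, and
`(γ x y * g) v' = σ y`, so `s y = γ x y (g u) = γ x y (s x)`. So at `x` the values of these sections are `g '' (fixSt G v0)`, of the same dimension as `fixSt G v0`.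
-/

noncomputable section

namespace ZrG

open Filter Topology Set

variable {V : Type*} [NormedAddCommGroup V] [NormedSpace ℂ V] [FiniteDimensional ℂ V] {E : Type*} [NormedAddCommGroup E]

theorem cont_of_fd (g : V ≃ₗ[ℂ] V) : Continuous fun v => g v :=
  LinearMap.continuous_of_finiteDimensional (g : V →ₗ[ℂ] V)

omit [FiniteDimensional ℂ V] in
theorem mul_ap (g g' : V ≃ₗ[ℂ] V) (v : V) : (g * g') v = g (g' v) := rfl

/-- near `v0` only the elements of the stabilizer of `v0` match points -/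
theorem exists_nhd {G : Subgroup (V ≃ₗ[ℂ] V)} (hG : Finite G) (v0 : V) :
    ∃ U : Set V, IsOpen U ∧ v0 ∈ U ∧ ∀ g ∈ G, ∀ w ∈ U, g w ∈ U → g v0 = v0 := by
  have h1 : ∀ g : G, ∃ U : Set V, IsOpen U ∧ v0 ∈ U ∧ ∀ w ∈ U, (g : V ≃ₗ[ℂ] V) w ∈ U → (g : V ≃ₗ[ℂ] V) v0 = v0 := by
    intro g
    by_cases hg : (g : V ≃ₗ[ℂ] V) v0 = v0
    · exact ⟨univ, isOpen_univ, mem_univ _, fun _ _ _ => hg⟩
    · obtain ⟨A, B, hA, hB, hvA, hvB, hAB⟩ := t2_separation hg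
      refine ⟨B ∩ (fun v => (g : V ≃ₗ[ℂ] V) v) ⁻¹' A, hB.inter (hA.preimage (cont_of_fd _)), ⟨hvB, hvA⟩, ?_⟩
      rintro w ⟨_, hw⟩ ⟨hgw, _⟩
      exact (Set.disjoint_left.1 hAB hw hgw).elim
  choose U hU hvU hUg using h1
  refine ⟨⋂ g, U g, isOpen_iInter_of_finite hU, mem_iInter.2 hvU, fun g hg w hw hgw => ?_⟩
  exact hUg ⟨g, hg⟩ w (mem_iInter.1 hw _) (mem_iInter.1 hgw _)

theorem defect {G : Subgroup (V ≃ₗ[ℂ] V)} {q : V → E} {f : E → ℂ} {e : ℕ} (h : OrbitDisc G q f e) {σ : E → V}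
    {γ : E → E → (V ≃ₗ[ℂ] V)} (hF : Frame G q σ γ) {v0 : V}
    (hl : ∀ᶠ x in 𝓝 (q v0), (f x = 0 ↔ ∃ v, q v = x ∧ ∃ g ∈ G, g ≠ 1 ∧ g v = v))
    (hv0 : Module.finrank ℂ V ≤ Module.finrank ℂ (fixSt G v0) + e) :
    ZrL.Defect γ {x | f x = 0} e (q v0) := by
  classical
  obtain ⟨U0, hU0, hvU0, hU0g⟩ := exists_nhd h.fin v0
  obtain ⟨N, hN, hNo, hqN⟩ := mem_nhds_iff.1 hl
  set U : Set V := U0 ∩ q ⁻¹' N with hUdef
  have hUo : IsOpen U := hU0.inter (hNo.preimage h.cont)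
  have hvU : v0 ∈ U := ⟨hvU0, hqN⟩
  have hUg : ∀ g ∈ G, ∀ w ∈ U, g w ∈ U → g v0 = v0 := fun g hg w hw hgw => hU0g g hg w hw.1 hgw.1
  set A : Set E := (q '' U) \ {x | f x = 0} with hA
  have hreg : ∀ x ∈ A, x ∈ RegO G q := by
    rintro x ⟨⟨v, hv, rfl⟩, hx⟩
    have h1 : ¬ ∃ v', q v' = q v ∧ ∃ g ∈ G, g ≠ 1 ∧ g v' = v' := fun hc => hx ((hN hv.2).2 hc)
    refine ⟨v, rfl, fun g hg hgv => ?_⟩
    by_contra hne
    exact h1 ⟨v, rfl, g, hg, hne, hgv⟩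
  let R : E → (V ≃ₗ[ℂ] V) → Prop := fun x g => g ∈ G ∧ ∃ v ∈ U, q v = x ∧ g v = σ x
  have hex : ∀ x ∈ A, ∃ g, R x g := by
    intro x hx
    obtain ⟨v, hv, hvx⟩ := hx.1
    obtain ⟨g, hg, hgv⟩ := (h.fib v (σ x)).1 (hvx.trans ((hF.sec x (hreg x hx)).1).symm)
    exact ⟨g, hg, v, hv, hvx, hgv⟩
  have huniq : ∀ x g g', R x g → R x g' → ∀ u ∈ fixSt G v0, g u = g' u := by
    rintro x g g' ⟨hg, v, hv, -, hgv⟩ ⟨hg', v', hv', -, hgv'⟩ u hu
    have h1 : (g'⁻¹ * g) v = v' := by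
      rw [mul_ap, hgv, ← hgv']
      exact g'.symm_apply_apply v'
    have h2 : g'⁻¹ * g ∈ G := G.mul_mem (G.inv_mem hg') hg
    have h3 := hUg _ h2 v hv (by rw [h1]; exact hv')
    have h4 := hu _ h2 h3
    have h5 : g' ((g'⁻¹ * g) u) = g u := g'.apply_symm_apply (g u)
    rw [← h5, h4]
  let s : V → E → V := fun u x => if hx : ∃ g, R x g then (Classical.choose hx) u else 0
  have hs : ∀ u ∈ fixSt G v0, ∀ x g, R x g → s u x = g u := by
    intro u hu x g hg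
    have h1 : ∃ g, R x g := ⟨g, hg⟩
    have h2 : s u x = (Classical.choose h1) u := dif_pos h1
    rw [h2]
    exact huniq x _ g (Classical.choose_spec h1) hg u hu
  have hsec : ∀ u ∈ fixSt G v0, ZrL.IsSec γ A (s u) := by
    intro u hu x hx
    obtain ⟨g, hg⟩ := hex x hx
    obtain ⟨hgG, v, hv, hvx, hgv⟩ := hg
    have hpre : IsOpen ((fun z => g.symm z) ⁻¹' U) := hUo.preimage (cont_of_fd g.symm)
    have hmem : σ x ∈ (fun z => g.symm z) ⁻¹' U := by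
      show g.symm (σ x) ∈ U
      rw [← hgv, g.symm_apply_apply]
      exact hv
    obtain ⟨ε, hε, hball⟩ := Metric.isOpen_iff.1 hpre _ hmem
    have hle : 𝓝[A] x ≤ 𝓝[RegO G q] x := nhdsWithin_mono x fun y hy => hreg y hy
    filter_upwards [(hF.near x (hreg x hx) ε hε).filter_mono hle, self_mem_nhdsWithin] with y hy hyA
    have h1 : g.symm ((γ x y).symm (σ y)) ∈ U := hball (by
      rw [Metric.mem_ball, dist_eq_norm]
      exact hy)
    have h2 : (γ x y * g) (g.symm ((γ x y).symm (σ y))) = σ y := by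
      rw [mul_ap, g.apply_symm_apply, LinearEquiv.apply_symm_apply]
    have h3 : γ x y * g ∈ G := G.mul_mem (hF.mem x y) hgG
    have h4 : q (g.symm ((γ x y).symm (σ y))) = y :=
      ((h.fib _ (σ y)).2 ⟨_, h3, h2⟩).trans (hF.sec y (hreg y hyA)).1
    rw [hs u hu y (γ x y * g) ⟨h3, _, h1, h4, h2⟩, hs u hu x g ⟨hgG, v, hv, hvx, hgv⟩, mul_ap]
  refine ⟨q '' U, (h.opn U hUo).mem_nhds ⟨v0, hvU, rfl⟩, fun x hx => ?_⟩
  obtain ⟨g, hg⟩ := hex x hx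
  have hsub : (fixSt G v0).map (g : V →ₗ[ℂ] V) ≤ ZrL.Val γ A x := by
    rintro _ ⟨u, hu, rfl⟩
    exact ⟨s u, hsec u hu, hs u hu x g hg⟩
  have h1 := Submodule.finrank_mono hsub
  have h2 : Module.finrank ℂ ((fixSt G v0).map (g : V →ₗ[ℂ] V)) = Module.finrank ℂ (fixSt G v0) :=
    LinearEquiv.finrank_map_eq g _
  rw [h2] at h1
  exact hv0.trans (Nat.add_le_add_right h1 e)

end ZrG
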