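import Pool.Agent.helper60.ZrG.G1
import Pool.Agent.helper60.ZrL.C1

set_option autoImplicit false

/-!
# ZrG, module G3: no germs of flat sections

Let `f x = 0 ↔ ...` hold on the open set `O1 ⊆ O` (`h.locus`). For `v` with trivial stabilizer (`v ∈ V'`) and `q v ∈ O1` let `g_v ∈ G` be the unique element with `g_v v = σ (q v)` and `S v := g_v.symm (s (q v))`. Equivariance: `S (g v) = g (S v)` for `g ∈ G` (`g_(g v) = g_v g⁻¹`).
`S` is locally constant on `{v ∈ V' | q v ∈ O1}`: for `w` near `v`, `γ (q v) (q w) = g_w g_v⁻¹` (`Frame.unique`: `(g_w g_v⁻¹).symm (σ (q w)) = g_v w`, close to `g_v v = σ (q v)`), so `S w = g_w.symm (γ .. (s (q v))) = g_v.symm (s (q v)) = S v` (flatness of `s` at `q v`, continuity of `q`).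
Let `r > 0` with `q (ball 0 r) ⊆ O1`. There is a polynomial function `D` (product of linear functionals `l_g ≠ 0` vanishing on the fixed vectors of `g`, `g ≠ 1` in `G`), not identically zero, which vanishes off `V'`. `{v ∈ ball 0 r | D v ≠ 0} ⊆ V'` is preconnected (`conn_an`) and dense in the ball (`dense_an`), so `S` is constant on it, `S = u`,
and then `S = u` on `V' ∩ ball 0 r` (`S` is locally constant there, density). Choose `v` in it so small that `g v ∈ ball 0 r` for all `g ∈ G`: `g u = S (g v) = u`, so `u = 0` (`h.fix`).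
Hence `s (q v) = g_v (S v) = 0` for `v ∈ V' ∩ ball 0 r`, and `q (ball 0 r)` is a neighbourhood of `0`, where every `x` with `f x ≠ 0` is such a `q v`.
-/

noncomputable section

namespace ZrG

open Filter Topology Set

variable {V : Type*} [NormedAddCommGroup V] [NormedSpace ℂ V] [FiniteDimensional ℂ V] {E : Type*} [NormedAddCommGroup E]

theorem cont_eqv (g : V ≃ₗ[ℂ] V) : Continuous g :=
  LinearMap.continuous_of_finiteDimensional (g : V →ₗ[ℂ] V)

/-- a nonzero functional which vanishes at the fixed vectors of `g` -/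
theorem exists_fn {g : V ≃ₗ[ℂ] V} (hg : g ≠ 1) : ∃ l : V →ₗ[ℂ] ℂ, l ≠ 0 ∧ ∀ v, g v = v → l v = 0 := by
  have h1 : ∃ v, g v ≠ v := by
    by_contra hcon
    push Not at hcon
    exact hg (LinearEquiv.ext fun v => by simpa using hcon v)
  obtain ⟨v, hv⟩ := h1
  have h2 : ∃ φ : Module.Dual ℂ V, φ (g v - v) ≠ 0 := by
    by_contra hcon
    push Not at hcon
    exact hv (sub_eq_zero.1 ((Module.forall_dual_apply_eq_zero_iff ℂ (g v - v)).1 hcon))
  obtain ⟨φ, hφ⟩ := h2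
  refine ⟨φ ∘ₗ ((g : V →ₗ[ℂ] V) - LinearMap.id), fun h => hφ ?_, fun w hw => ?_⟩
  · have h3 := congrArg (fun l : V →ₗ[ℂ] ℂ => l v) h
    simpa using h3
  · simp [hw]

/-- an analytic function, not identically zero, which vanishes at all vectors fixed by an element `g ≠ 1` of `G` -/
theorem exists_D {G : Subgroup (V ≃ₗ[ℂ] V)} (hG : Finite G) :
    ∃ D : V → ℂ, AnalyticOnNhd ℂ D univ ∧ (∃ v, D v ≠ 0) ∧ ∀ v, D v ≠ 0 → ∀ g ∈ G, g v = v → g = 1 := by
  classical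
  have hfin : (G : Set (V ≃ₗ[ℂ] V)).Finite := hG
  choose! l hl0 hl using fun (g : V ≃ₗ[ℂ] V) (hg : g ≠ 1) => exists_fn hg
  refine ⟨fun v => ∏ g ∈ hfin.toFinset.erase 1, l g v, ?_, ?_, ?_⟩
  · refine Finset.analyticOnNhd_fun_prod _ fun g _ v _ => ?_
    exact (LinearMap.toContinuousLinearMap (l g)).analyticAt v
  · have h1 : ⊤ ∉ (hfin.toFinset.erase 1).image fun g => LinearMap.ker (l g) := by
      intro hcon
      obtain ⟨g, hg, hg2⟩ := Finset.mem_image.1 hcon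
      exact hl0 g (Finset.mem_erase.1 hg).1 (LinearMap.ker_eq_top.1 hg2)
    have h2 := Subspace.biUnion_ne_univ_of_top_notMem h1
    obtain ⟨v, hv⟩ := (Set.ne_univ_iff_exists_notMem _).1 h2
    refine ⟨v, Finset.prod_ne_zero_iff.2 fun g hg h0 => hv ?_⟩
    exact Set.mem_biUnion (Finset.mem_image_of_mem _ hg) (LinearMap.mem_ker.2 h0)
  · intro v hv g hg hgv
    by_contra hne
    refine hv (Finset.prod_eq_zero (i := g) (Finset.mem_erase.2 ⟨hne, hfin.mem_toFinset.2 hg⟩) (hl g hne v hgv))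

theorem no_sec {G : Subgroup (V ≃ₗ[ℂ] V)} {q : V → E} {f : E → ℂ} {e : ℕ} (h : OrbitDisc G q f e) {σ : E → V}
    {γ : E → E → (V ≃ₗ[ℂ] V)} (hF : Frame G q σ γ) {O : Set E} (hO : O ∈ 𝓝 (0 : E)) {s : E → V}
    (hs : ZrL.IsSec γ (O \ {x | f x = 0}) s) : ∀ᶠ x in 𝓝 (0 : E), x ∉ {x | f x = 0} → s x = 0 := by
  classical
  have hfin : (G : Set (V ≃ₗ[ℂ] V)).Finite := h.fin
  -- the open set `O1`
  obtain ⟨O1, hO1, hO1o, h01⟩ := mem_nhds_iff.1 (Filter.inter_mem hO h.locus)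
  have hO1O : O1 ⊆ O := fun x hx => (hO1 hx).1
  have hloc : ∀ x ∈ O1, (f x = 0 ↔ ∃ v, q v = x ∧ ∃ g ∈ G, g ≠ 1 ∧ g v = v) := fun x hx => (hO1 hx).2
  -- invariance of the regular vectors
  have hreg : ∀ v, (∀ g ∈ G, g v = v → g = 1) → ∀ k ∈ G, ∀ g ∈ G, g (k v) = k v → g = 1 := by
    intro v hv k hk g hg hgk
    have h1 : k⁻¹ * g * k ∈ G := G.mul_mem (G.mul_mem (G.inv_mem hk) hg) hk
    have h2 : (k⁻¹ * g * k) v = v := by
      change k.symm (g (k v)) = v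
      rw [hgk]
      exact k.symm_apply_apply v
    have h3 := hv _ h1 h2
    have h4 : g = k * (k⁻¹ * g * k) * k⁻¹ := by group
    rw [h4, h3]
    group
  have hqG : ∀ v, ∀ g ∈ G, q (g v) = q v := fun v g hg => ((h.fib v (g v)).2 ⟨g, hg, rfl⟩).symm
  have hRO : ∀ v, (∀ g ∈ G, g v = v → g = 1) → q v ∈ RegO G q := fun v hv => ⟨v, rfl, hv⟩
  have hf0 : ∀ v, (∀ g ∈ G, g v = v → g = 1) → q v ∈ O1 → f (q v) ≠ 0 := by
    intro v hv hqv h0
    obtain ⟨v', hv', g, hg, hg1, hgv⟩ := (hloc _ hqv).1 h0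
    obtain ⟨k, hk, hkv⟩ := (h.fib v v').1 hv'.symm
    rw [← hkv] at hgv
    exact hg1 (hreg v hv k hk g hg hgv)
  -- the elements `tr v`
  have htr : ∀ v, (∀ g ∈ G, g v = v → g = 1) → ∃ g ∈ G, g v = σ (q v) := by
    intro v hv
    exact (h.fib v (σ (q v))).1 (hF.sec (q v) (hRO v hv)).1.symm
  choose! tr htrG htrv using htr
  have huniq : ∀ v, (∀ g ∈ G, g v = v → g = 1) → ∀ g ∈ G, g v = σ (q v) → g = tr v := by
    intro v hv g hg hgv
    have h1 : (tr v)⁻¹ * g ∈ G := G.mul_mem (G.inv_mem (htrG v hv)) hg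
    have h2 : ((tr v)⁻¹ * g) v = v := by
      change (tr v).symm (g v) = v
      rw [hgv, ← htrv v hv]
      exact (tr v).symm_apply_apply v
    have h3 := hv _ h1 h2
    exact (inv_mul_eq_one.1 h3).symm
  -- equivariance
  have heq : ∀ v, (∀ g ∈ G, g v = v → g = 1) → ∀ g ∈ G,
      (tr (g v)).symm (s (q (g v))) = g ((tr v).symm (s (q v))) := by
    intro v hv g hg
    have h1 : tr v * g⁻¹ = tr (g v) := by
      refine huniq (g v) (hreg v hv g hg) _ (G.mul_mem (htrG v hv) (G.inv_mem hg)) ?_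
      change tr v (g.symm (g v)) = _
      rw [g.symm_apply_apply, hqG v g hg, htrv v hv]
    rw [hqG v g hg, ← h1]
    rfl
  -- local constancy
  have hlc : ∀ v, (∀ g ∈ G, g v = v → g = 1) → q v ∈ O1 →
      ∀ᶠ w in 𝓝[{v | ∀ g ∈ G, g v = v → g = 1}] v, (tr w).symm (s (q w)) = (tr v).symm (s (q v)) := by
    intro v hv hqv
    obtain ⟨ε, hε, hu⟩ := Frame.unique h hF (hRO v hv)
    have h1 : ∀ᶠ y in 𝓝[O \ {x | f x = 0}] (q v), s y = γ (q v) y (s (q v)) := hs (q v) ⟨hO1O hqv, hf0 v hv hqv⟩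
    have hqc : Tendsto q (𝓝[{v | ∀ g ∈ G, g v = v → g = 1}] v) (𝓝 (q v)) :=
      (h.cont.tendsto v).mono_left nhdsWithin_le_nhds
    have hmem : ∀ᶠ w in 𝓝[{v | ∀ g ∈ G, g v = v → g = 1}] v, ∀ g ∈ G, g w = w → g = 1 := self_mem_nhdsWithin
    have hO1w : ∀ᶠ w in 𝓝[{v | ∀ g ∈ G, g v = v → g = 1}] v, q w ∈ O1 := hqc (hO1o.mem_nhds hqv)
    have h2 : ∀ᶠ w in 𝓝[{v | ∀ g ∈ G, g v = v → g = 1}] v, s (q w) = γ (q v) (q w) (s (q v)) := by
      refine (tendsto_nhdsWithin_iff.2 ⟨hqc, ?_⟩).eventually h1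
      filter_upwards [hmem, hO1w] with w hw1 hw2
      exact ⟨hO1O hw2, hf0 w hw1 hw2⟩
    have h3 : ∀ᶠ w in 𝓝[{v | ∀ g ∈ G, g v = v → g = 1}] v,
        ∀ g ∈ G, ‖g.symm (σ (q w)) - σ (q v)‖ < ε → g = γ (q v) (q w) := by
      refine (tendsto_nhdsWithin_iff.2 ⟨hqc, ?_⟩).eventually hu
      filter_upwards [hmem] with w hw1
      exact hRO w hw1
    have h4 : ∀ᶠ w in 𝓝[{v | ∀ g ∈ G, g v = v → g = 1}] v, ‖tr v w - σ (q v)‖ < ε := by
      have h5 : Tendsto (fun w => ‖tr v w - σ (q v)‖) (𝓝 v) (𝓝 ‖tr v v - σ (q v)‖) :=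
        (((cont_eqv (tr v)).tendsto v).sub_const _).norm
      rw [htrv v hv, sub_self, norm_zero] at h5
      exact (h5.mono_left nhdsWithin_le_nhds).eventually (gt_mem_nhds hε)
    filter_upwards [hmem, h2, h3, h4] with w hw hw2 hw3 hw4
    have h6 : tr w * (tr v)⁻¹ ∈ G := G.mul_mem (htrG w hw) (G.inv_mem (htrG v hv))
    have h7 : (tr w * (tr v)⁻¹).symm (σ (q w)) = tr v w := by
      rw [← htrv w hw]
      change tr v ((tr w).symm (tr w w)) = _
      rw [(tr w).symm_apply_apply]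
    have h8 := hw3 _ h6 (by rw [h7]; exact hw4)
    rw [hw2, ← h8]
    change (tr w).symm (tr w ((tr v).symm (s (q v)))) = _
    rw [(tr w).symm_apply_apply]
  -- the ball
  obtain ⟨r, hr, hball⟩ : ∃ r > 0, Metric.ball (0 : V) r ⊆ q ⁻¹' O1 := by
    refine Metric.mem_nhds_iff.1 (h.cont.continuousAt.preimage_mem_nhds ?_)
    rw [h.zero]
    exact hO1o.mem_nhds h01
  obtain ⟨D, hDan, ⟨v1, hv1⟩, hDreg⟩ := exists_D h.fin
  have hdense0 : ∀ x : V, x ∈ closure {x | x ∈ (univ : Set V) ∧ D x ≠ 0} := fun x =>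
    ZrL.dense_an isOpen_univ convex_univ hDan (mem_univ v1) hv1 (mem_univ x)
  have hdense : ∀ x : V, ∀ U ∈ 𝓝 x, ∃ y ∈ U, D y ≠ 0 := by
    intro x U hU
    obtain ⟨y, hy1, hy2⟩ := mem_closure_iff_nhds.1 (hdense0 x) U hU
    exact ⟨y, hy1, hy2.2⟩
  have hpre : IsPreconnected {x | x ∈ Metric.ball (0 : V) r ∧ D x ≠ 0} :=
    ZrL.conn_an Metric.isOpen_ball (convex_ball _ _) (hDan.mono (subset_univ _))
  -- a small point
  have hU : (⋂ g ∈ hfin.toFinset, g ⁻¹' Metric.ball (0 : V) r) ∩ Metric.ball (0 : V) r ∈ 𝓝 (0 : V) := by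
    refine Filter.inter_mem ((Filter.biInter_finset_mem _).2 fun g _ => ?_) (Metric.ball_mem_nhds _ hr)
    refine (cont_eqv g).continuousAt.preimage_mem_nhds ?_
    rw [map_zero]
    exact Metric.ball_mem_nhds _ hr
  obtain ⟨a, ⟨haU, hab⟩, haD⟩ := hdense 0 _ hU
  have haG : ∀ g ∈ G, g a ∈ Metric.ball (0 : V) r := by
    intro g hg
    exact mem_iInter₂.1 haU g (hfin.mem_toFinset.2 hg)
  have hconst : ∀ b, b ∈ Metric.ball (0 : V) r → D b ≠ 0 →
      (tr b).symm (s (q b)) = (tr a).symm (s (q a)) := by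
    intro b hb hbD
    have h1 := hpre.induction₂ (fun x y => (tr x).symm (s (q x)) = (tr y).symm (s (q y))) (fun x hx => ?_)
      (fun x y z _ _ _ h1 h2 => h1.trans h2) (fun x y _ _ h1 => h1.symm)
      (x := b) (y := a) ⟨hb, hbD⟩ ⟨hab, haD⟩
    · exact h1
    · have h2 := hlc x (hDreg x hx.2) (hball hx.1)
      have h3 := h2.filter_mono (nhdsWithin_mono x (t := {v | ∀ g ∈ G, g v = v → g = 1}) (s := {x | x ∈ Metric.ball (0 : V) r ∧ D x ≠ 0})
        fun y hy => hDreg y hy.2)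
      filter_upwards [h3] with y hy
      exact hy.symm
  have hconst2 : ∀ b, b ∈ Metric.ball (0 : V) r → (∀ g ∈ G, g b = b → g = 1) →
      (tr b).symm (s (q b)) = (tr a).symm (s (q a)) := by
    intro b hb hbV
    have h1 := hlc b hbV (hball hb)
    obtain ⟨U, hUo, hbU, hU1⟩ := mem_nhdsWithin.1 h1
    obtain ⟨y, ⟨hyU, hyb⟩, hyD⟩ := hdense b (U ∩ Metric.ball (0 : V) r)
      (Filter.inter_mem (hUo.mem_nhds hbU) (Metric.isOpen_ball.mem_nhds hb))
    have h2 : (tr y).symm (s (q y)) = (tr b).symm (s (q b)) := hU1 ⟨hyU, hDreg y hyD⟩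
    rw [← h2]
    exact hconst y hyb hyD
  have hu0 : (tr a).symm (s (q a)) = 0 := by
    refine h.fix _ fun g hg => ?_
    have haV := hDreg a haD
    rw [← heq a haV g hg]
    exact hconst2 (g a) (haG g hg) (hreg a haV g hg)
  -- conclusion
  have hq0 : q '' Metric.ball (0 : V) r ∈ 𝓝 (0 : E) := by
    have h1 := (h.opn _ (Metric.isOpen_ball (x := (0 : V)) (ε := r))).mem_nhds (x := q 0) ⟨0, Metric.mem_ball_self hr, rfl⟩
    rwa [h.zero] at h1
  filter_upwards [hq0] with x hx hfx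
  obtain ⟨v, hv, rfl⟩ := hx
  have hvV : ∀ g ∈ G, g v = v → g = 1 := by
    intro g hg hgv
    by_contra hne
    exact hfx ((hloc _ (hball hv)).2 ⟨v, rfl, g, hg, hne, hgv⟩)
  have h1 := hconst2 v hv hvV
  rw [hu0] at h1
  exact (LinearEquiv.map_eq_zero_iff _).1 h1

end ZrG
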