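import Pool.Agent.helper60.ZrG.G2
import Pool.Agent.helper60.ZrG.G3
import Pool.Agent.helper60.ZrL.FA

set_option autoImplicit false

/-!
# ZrG, module G4: final forms for orbit discriminants (written by helper60)
-/

noncomputable section

namespace ZrG

open Filter Topology Set

variable {V : Type*} [NormedAddCommGroup V] [NormedSpace ℂ V] [FiniteDimensional ℂ V] {E : Type*} [NormedAddCommGroup E]

theorem has_sys {G : Subgroup (V ≃ₗ[ℂ] V)} {q : V → E} {f : E → ℂ} {e : ℕ} (h : OrbitDisc G q f e) :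
    ZrL.HasSys ℂ V {x | f x = 0} e := by
  obtain ⟨σ, γ, hF⟩ := exists_frame h
  have hr : ∀ᶠ x in 𝓝 (0 : E), x ∈ range q := by
    have h1 := h.opn.range_mem_nhds (x := 0)
    rwa [h.zero] at h1
  refine ⟨{x | x ∈ range q ∧ (f x = 0 ↔ ∃ v, q v = x ∧ ∃ g ∈ G, g ≠ 1 ∧ g v = v)}, γ, hr.and h.locus,
    (hF.locsys h).mono ?_, ?_, fun O hO s hs => no_sec h hF hO hs⟩
  · rintro x ⟨⟨⟨v, hv⟩, h2⟩, h3⟩
    refine ⟨v, hv, fun g hg hgv => ?_⟩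
    by_contra hne
    exact h3 (h2.2 ⟨v, hv, g, hg, hne, hgv⟩)
  · filter_upwards [h.dens, h.locus.eventually_nhds.eventually_nhds] with x h1 h3 hx
    have h4 := mem_closure_iff_frequently.1 (h1 hx)
    rw [mem_closure_iff_frequently]
    refine (h4.and_eventually h3).mono ?_
    rintro y ⟨⟨h5, v, rfl, h6⟩, h8⟩
    exact ⟨h5, defect h hF h8 h6⟩

variable [NormedSpace ℂ E] [FiniteDimensional ℂ E]

theorem orbit_near {F : ℝ → E → ℂ} {U : Set E} (hU : IsOpen U) (h0 : (0 : E) ∈ U)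
    (hF : ContinuousOn (fun p : ℝ × E => F p.1 p.2) (Icc (0:ℝ) 1 ×ˢ U))
    (ha : ∀ t ∈ Icc (0:ℝ) 1, AnalyticOnNhd ℂ (F t) U) (hr : ∀ t ∈ Icc (0:ℝ) 1, Zr.RedGerm (F t))
    (htop : ∀ t ∈ Icc (0:ℝ) 1, ∃ (φ ψ : E → E) (V W : Set E), Zr.Equ (F 0) (F t) φ ψ V W) {s : ℝ}
    (hs : s ∈ Icc (0:ℝ) 1) {G : Subgroup (V ≃ₗ[ℂ] V)} {q : V → E} {e : ℕ} (hG : OrbitDisc G q (F s) e) {k : ℕ}
    (hk : Zr.Mult (F s) k) (hbig : e * (k - 1) < Module.finrank ℂ V) :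
    ∃ η : ℝ, 0 < η ∧ ∀ t ∈ Icc (0:ℝ) 1, |t - s| < η → Zr.Mult (F t) k := by
  obtain ⟨φ, ψ, V', W', hE⟩ := htop s hs
  have h := hE.symm
  have h2 : ZrL.HasSys ℂ V {x | F 0 x = 0} e :=
    (has_sys hG).transfer h.hV h.hW h.mφ h.mψ h.li h.ri h.cφ h.cψ h.z0 (fun z hz => h.zs z hz)
  exact ZrL.result_near hU h0 hF ha hr htop hs hk h2 hbig

end ZrG
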